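import Pool.Agent.MP_9cb8e5_pr.H55.Crit

open MeasureTheory Set Filter Pool.Agent.MP_9cb8e5_pr.H67

/-- Let `τ v = ∫_{[v, ∞)} w^{-1/2} dμ(w)`. There is a universal depth function `D R B > 0` such
that, for every probability measure `μ ≠ δ₀` on `[0, ∞)` outside the window (`τ` is infinitely often
below every exponential, but for all large `R` the tail `τ v` stays above `D R B` whenever the part
of `μ` below `v` has exponential moment of order `R` at most `B`), the Laplace transform of `μ` has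
(R) if and only if `τ` is infinitely often below every exponential. -/
theorem Pool.Agent.Results.MP_9cb8e5_pr.Criterion.result :
    ∃ D : ℝ → ℝ → ℝ, (∀ R B, 0 < D R B) ∧ ∀ μ : Measure ℝ,
      IsProbabilityMeasure μ → μ (Iio 0) = 0 → μ ≠ Measure.dirac 0 →
      ∀ τ : ℝ → ℝ, (∀ v, τ v = ∫ w in Ici v, (Real.sqrt w)⁻¹ ∂μ) →
      ¬ ((∀ C : ℝ, ∃ᶠ v in atTop, τ v < Real.exp (-C * v)) ∧
        ∀ᶠ R in atTop, ∀ v B, 0 < v → ∫ w in Iio v, Real.exp (R * w) ∂μ ≤ B → D R B < τ v) →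
      ∀ L : ℝ → ℝ, (∀ s, 0 ≤ s → L s = ∫ w, Real.exp (-s * w) ∂μ) →
        (PropR L ↔ ∀ C : ℝ, ∃ᶠ v in atTop, τ v < Real.exp (-C * v)) :=
  Pool.Agent.MP_9cb8e5_pr.H55.criterion
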